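import Mathlib

/-!
Sums of multilinear formulas: the final numbers (for helper87).
-/

set_option autoImplicit false

namespace Pool.Helper98.MS

open Real

theorem twelve_le_exp : (12 : ℝ) ≤ exp (5 / 2) := by
  have h1 : (2.718 : ℝ) < exp 1 := by
    have := exp_one_gt_d9
    linarith
  have h2 : exp (5 / 2) ^ 2 = exp 1 ^ 5 := by
    rw [← exp_nat_mul, ← exp_nat_mul]
    norm_num
  have h3 : (12 : ℝ) ^ 2 ≤ exp (5 / 2) ^ 2 := by
    rw [h2]
    have : (2.718 : ℝ) ^ 5 ≤ exp 1 ^ 5 := pow_le_pow_left₀ (by norm_num) h1.le 5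
    refine le_trans ?_ this
    norm_num
  exact le_of_pow_le_pow_left₀ (by norm_num) (exp_pos _).le h3

theorem one_add_le_exp (t : ℝ) (ht : 0 ≤ t) : 1 + t + t ^ 2 ≤ 2 * exp t := by
  have := quadratic_le_exp_of_nonneg ht
  nlinarith

/-- the choice of `q` -/
theorem exists_q (Λ t : ℝ) (hΛ : log 2 ≤ Λ) (ht : 0 ≤ t) (hsq : Λ ≤ (1 + t) ^ 2) :
    ∃ q : ℕ, 1 ≤ q ∧ Λ ≤ (q : ℝ) ^ 2 / 2 * log 2 ∧ (12 : ℝ) ^ q ≤ exp 9 * exp (9 * t) := by
  have hl2 : (0.6931 : ℝ) < log 2 := by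
    have := log_two_gt_d9
    linarith
  have hΛ0 : 0 < Λ := by linarith
  obtain ⟨z, hz⟩ : ∃ z : ℝ, z = sqrt (2 * Λ / log 2) := ⟨_, rfl⟩
  have hz2 : z ^ 2 = 2 * Λ / log 2 := by rw [hz]; exact sq_sqrt (by positivity)
  have hz0 : 0 ≤ z := by rw [hz]; exact sqrt_nonneg _
  have hzsq : z ^ 2 * log 2 = 2 * Λ := by
    rw [hz2]
    field_simp
  have hz1 : 1 ≤ z := by
    by_contra hcon
    push Not at hcon
    have h1 : z ^ 2 ≤ 1 := pow_le_one₀ hz0 hcon.le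
    have h2 : z ^ 2 * log 2 ≤ 1 * log 2 := mul_le_mul_of_nonneg_right h1 (by linarith)
    linarith
  have hzl : z ≤ 1.75 * (1 + t) := by
    have h2 : z ^ 2 ≤ (1.75 * (1 + t)) ^ 2 := by
      rw [mul_pow, hz2, div_le_iff₀ (by linarith)]
      have h3 : (0 : ℝ) ≤ (1 + t) ^ 2 := by positivity
      have h4 : 0.6931 * (1 + t) ^ 2 ≤ log 2 * (1 + t) ^ 2 := mul_le_mul_of_nonneg_right hl2.le h3
      have h5 : (1.75 : ℝ) ^ 2 * (1 + t) ^ 2 * log 2 = 3.0625 * (log 2 * (1 + t) ^ 2) := by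
        norm_num
        ring
      rw [h5]
      linarith
    exact le_of_pow_le_pow_left₀ (by norm_num) (by positivity) h2
  obtain ⟨q, hqq⟩ : ∃ q : ℕ, q = ⌈z⌉₊ := ⟨_, rfl⟩
  have hqz : z ≤ q := by rw [hqq]; exact Nat.le_ceil z
  have hqz' : (q : ℝ) ≤ 2 * z := by
    rw [hqq]
    have := (Nat.ceil_lt_add_one hz0).le
    linarith
  refine ⟨q, ?_, ?_, ?_⟩
  · have : (1 : ℝ) ≤ q := hz1.trans hqz
    exact_mod_cast this
  · have hzq : z ^ 2 ≤ (q : ℝ) ^ 2 := pow_le_pow_left₀ hz0 hqz 2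
    have := mul_le_mul_of_nonneg_right hzq (show 0 ≤ log 2 by linarith)
    linarith
  · have h1 : (12 : ℝ) ^ q ≤ exp (5 / 2 * q) := by
      rw [mul_comm (5 / 2 : ℝ) (q : ℝ), exp_nat_mul]
      exact pow_le_pow_left₀ (by norm_num) twelve_le_exp q
    refine h1.trans ?_
    rw [← exp_add]
    apply exp_le_exp.2
    linarith

/-- small `n` -/
theorem case_small {n b Q w e E C L : ℝ} (he0 : 0 ≤ e) (he1 : e ≤ 1) (hb : 0 ≤ b) (hw : 1 ≤ w)
    (hE : 1 ≤ E) (hC : 10 ^ 4 * E ≤ C) (hL : 0.6931 ≤ L) (hQe : Q * e ≤ E)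
    (h : n ≤ 9 * Q * w + b) : n * e ≤ (L + b) * (C * w) := by
  have h2 : n * e ≤ (9 * Q * w + b) * e := mul_le_mul_of_nonneg_right h he0
  have h3 : (9 * Q * w + b) * e = 9 * w * (Q * e) + b * e := by ring
  have h4 : 9 * w * (Q * e) ≤ 9 * w * E := mul_le_mul_of_nonneg_left hQe (by linarith)
  have h5 : b * e ≤ b * 1 := mul_le_mul_of_nonneg_left he1 hb
  have hC0 : 0 ≤ C := by linarith
  have hCw : C * 1 ≤ C * w := mul_le_mul_of_nonneg_left hw hC0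
  have h6 : b * 1 ≤ b * (C * w) := mul_le_mul_of_nonneg_left (by linarith) hb
  have h7 : 0.6931 * (C * w) ≤ L * (C * w) := mul_le_mul_of_nonneg_right hL (by linarith)
  have h8 : 10 ^ 4 * E * w ≤ C * w := mul_le_mul_of_nonneg_right hC (by linarith)
  have h9 : (0 : ℝ) ≤ E * w := mul_nonneg (by linarith) (by linarith)
  have h10 : (L + b) * (C * w) = L * (C * w) + b * (C * w) := by ring
  rw [h3] at h2
  rw [h10]
  nlinarith

/-- the main case -/
theorem case_main {n b Q w e E C L Λ l : ℝ} (he0 : 0 ≤ e) (hb : 0 ≤ b) (hw : 1 ≤ w)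
    (hE : 1 ≤ E) (hC : 10 ^ 4 * E ≤ C) (hL : 0.6931 ≤ L) (hΛ : 0.6931 ≤ Λ)
    (hQe : Q * e ≤ E) (h0 : Λ * n ≤ (L + b + l) * (27 * Q * w))
    (h2 : 2 * l * (27 * Q * w) ≤ Λ * n) : n * e ≤ (L + b) * (C * w) := by
  have h3 : Λ * n ≤ 54 * ((L + b) * w) * Q := by linarith
  have h4 : Λ * n * e ≤ 54 * ((L + b) * w) * Q * e := mul_le_mul_of_nonneg_right h3 he0
  have hLbw : 0 ≤ (L + b) * w := mul_nonneg (by linarith) (by linarith)
  have h5 : 54 * ((L + b) * w) * (Q * e) ≤ 54 * ((L + b) * w) * E :=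
    mul_le_mul_of_nonneg_left hQe (by linarith)
  have h7 : 54 * E ≤ C * Λ := by
    have hC0 : 0 ≤ C := by linarith
    have h8 : C * 0.6931 ≤ C * Λ := mul_le_mul_of_nonneg_left hΛ hC0
    linarith
  have h8 : ((L + b) * w) * (54 * E) ≤ ((L + b) * w) * (C * Λ) :=
    mul_le_mul_of_nonneg_left h7 hLbw
  have h9 : (n * e) * Λ ≤ ((L + b) * (C * w)) * Λ := by linarith
  exact le_of_mul_le_mul_right h9 (by linarith)

/-- large width -/
theorem case_large {n b Q w e E C L Λ l y t : ℝ} (he0 : 0 ≤ e) (hb : 0 ≤ b) (hw : 1 ≤ w)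
    (hn : 1 ≤ n) (hQ : 1 ≤ Q) (ht : 0 ≤ t)
    (hE : 1 ≤ E) (hEl : E = exp 9) (hC : 10 ^ 4 * E ≤ C) (hL : 0.6931 ≤ L) (hΛ : 0.6931 ≤ Λ)
    (hQle : Q ≤ E * exp (9 * t)) (hwt : log w ≤ t ^ 2)
    (hee : exp (9 * t) * exp t * e ≤ 1) (hy2 : y ^ 2 = 2 * (n + 1)) (hy0 : 0 < y)
    (hly : l = 2 * log y) (h2 : Λ * n ≤ 2 * l * (27 * Q * w)) : n * e ≤ (L + b) * (C * w) := by
  have hly2 : l ≤ 2 * y := by
    have := log_le_sub_one_of_pos hy0
    rw [hly]
    linarith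
  have hQw0 : 0 < Q * w := mul_pos (by linarith) (by linarith)
  have hl0 : 0 ≤ l := by
    rw [hly]
    have hy1 : 1 ≤ y := by
      by_contra hcon
      push Not at hcon
      have : y ^ 2 ≤ 1 := pow_le_one₀ hy0.le hcon.le
      linarith
    have := log_nonneg hy1
    linarith
  have h3 : 0.6931 * n ≤ Λ * n := mul_le_mul_of_nonneg_right hΛ (by linarith)
  have hQwl : 0 ≤ (Q * w) * l := mul_nonneg hQw0.le hl0
  have h4 : n ≤ 78 * (Q * w) * l := by linarith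
  have h6 : y ≤ 1024 * (Q * w) := by
    have h7 : 78 * (Q * w) * l ≤ 78 * (Q * w) * (2 * y) :=
      mul_le_mul_of_nonneg_left hly2 (by linarith)
    have h8 : y * y ≤ (624 * (Q * w)) * y := by
      have : y * y = y ^ 2 := by ring
      rw [this]
      linarith
    have h9 : y ≤ 624 * (Q * w) := le_of_mul_le_mul_right h8 hy0
    linarith
  have h7 : log y ≤ 6.94 + 9 + 9 * t + t ^ 2 := by
    have h8 : log y ≤ log (1024 * (Q * w)) := log_le_log hy0 h6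
    rw [log_mul (by norm_num) hQw0.ne', log_mul (by linarith) (by linarith)] at h8
    have h9 : log 1024 = 10 * log 2 := by
      rw [show (1024 : ℝ) = 2 ^ 10 by norm_num, log_pow]
      norm_num
    have h10 : log Q ≤ 9 + 9 * t := by
      have := log_le_log (by linarith) hQle
      rwa [hEl, ← exp_add, log_exp] at this
    have h11 : log 2 < 0.6932 := by
      have := log_two_lt_d9
      linarith
    linarith
  have h8 : l ≤ 64 * exp t := by
    have := one_add_le_exp t ht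
    rw [hly]
    nlinarith
  have het : 0 < exp t := exp_pos t
  have hExp : Q * w ≤ E * exp (9 * t) * w := mul_le_mul_of_nonneg_right hQle (by linarith)
  have h10 : (Q * w) * l ≤ (E * exp (9 * t) * w) * (64 * exp t) :=
    mul_le_mul hExp h8 hl0 (hQw0.le.trans hExp)
  have h11 : n * e ≤ 78 * ((E * exp (9 * t) * w) * (64 * exp t)) * e :=
    mul_le_mul_of_nonneg_right (by linarith) he0
  have h12 : 78 * ((E * exp (9 * t) * w) * (64 * exp t)) * e =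
      4992 * (E * w) * (exp (9 * t) * exp t * e) := by ring
  have hEw : 0 ≤ E * w := mul_nonneg (by linarith) (by linarith)
  have h13 : 4992 * (E * w) * (exp (9 * t) * exp t * e) ≤ 4992 * (E * w) * 1 :=
    mul_le_mul_of_nonneg_left hee (by linarith)
  have h14 : 10 ^ 4 * E * w ≤ C * w := mul_le_mul_of_nonneg_right hC (by linarith)
  have hCw : 0 ≤ C * w := by linarith
  have h15 : 0.6931 * (C * w) ≤ (L + b) * (C * w) :=
    mul_le_mul_of_nonneg_right (by linarith) hCw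
  linarith

theorem ms_num : ∃ C : ℝ, 0 < C ∧ ∀ (n s w b : ℕ) (L : ℝ), 1 ≤ s → 1 ≤ w → log 2 ≤ L →
    (∀ q : ℕ, 1 ≤ q → log (2 * s * w) ≤ (q : ℝ) ^ 2 / 2 * log 2 → 9 * 12 ^ q * w + b ≤ n →
      log (2 * s * w) / (27 * 12 ^ q * w) * n ≤ L + b + log (2 * (n + 1))) →
    (n : ℝ) * exp (-(C * sqrt (log (s * w)))) / (C * w) ≤ L + b := by
  have hl2 : (0.6931 : ℝ) < log 2 := by
    have := log_two_gt_d9
    linarith
  have hl2' : log 2 < 0.6932 := by
    have := log_two_lt_d9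
    linarith
  obtain ⟨E, hE⟩ : ∃ E : ℝ, E = exp 9 := ⟨_, rfl⟩
  have hE1 : 1 ≤ E := by rw [hE]; exact one_le_exp (by norm_num)
  obtain ⟨C, hC⟩ : ∃ C : ℝ, C = 10 ^ 4 * E := ⟨_, rfl⟩
  have hC10 : 10 ^ 4 ≤ C := by rw [hC]; linarith
  refine ⟨C, by linarith, ?_⟩
  intro n s w b L hs hw hL hq
  have hs' : (1 : ℝ) ≤ s := by exact_mod_cast hs
  have hw' : (1 : ℝ) ≤ w := by exact_mod_cast hw
  have hw0 : (0 : ℝ) < w := by linarith
  have hs0 : (0 : ℝ) < s := by linarith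
  have hb0 : (0 : ℝ) ≤ b := Nat.cast_nonneg _
  have hsw : (1 : ℝ) ≤ s * w := by
    have := mul_le_mul hs' hw' zero_le_one hs0.le
    linarith
  obtain ⟨x, hx⟩ : ∃ x : ℝ, x = log (s * w) := ⟨_, rfl⟩
  have hx0 : 0 ≤ x := by rw [hx]; exact log_nonneg hsw
  obtain ⟨t, ht⟩ : ∃ t : ℝ, t = sqrt x := ⟨_, rfl⟩
  have ht0 : 0 ≤ t := by rw [ht]; exact sqrt_nonneg x
  have htt : t ^ 2 = x := by rw [ht]; exact sq_sqrt hx0
  obtain ⟨Λ, hΛ⟩ : ∃ Λ : ℝ, Λ = log (2 * s * w) := ⟨_, rfl⟩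
  have hΛx : Λ = log 2 + x := by
    rw [hΛ, hx, mul_assoc, log_mul (by norm_num) (by positivity)]
  rw [← hx, ← ht]
  rw [← hΛ] at hq
  have hΛ2 : log 2 ≤ Λ := by linarith
  have hsq : Λ ≤ (1 + t) ^ 2 := by
    have : (1 + t) ^ 2 = 1 + 2 * t + t ^ 2 := by ring
    rw [this]
    linarith
  obtain ⟨q, hq1, hq2, hq3⟩ := exists_q Λ t hΛ2 ht0 hsq
  rw [← hE] at hq3
  have hq' := hq q hq1 hq2
  obtain ⟨Q, hQ⟩ : ∃ Q : ℝ, Q = (12 : ℝ) ^ q := ⟨_, rfl⟩
  have hQ0 : 1 ≤ Q := by rw [hQ]; exact one_le_pow₀ (by norm_num)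
  rw [← hQ] at hq' hq3
  obtain ⟨e, he⟩ : ∃ e : ℝ, e = exp (-(C * t)) := ⟨_, rfl⟩
  have he0 : 0 < e := by rw [he]; exact exp_pos _
  have hCt : 10 * t ≤ C * t := mul_le_mul_of_nonneg_right (by linarith) ht0
  have he1 : e ≤ 1 := by rw [he]; exact exp_le_one_iff.2 (by linarith)
  have hee : exp (9 * t) * exp t * e ≤ 1 := by
    rw [he, ← exp_add, ← exp_add]
    apply exp_le_one_iff.2
    linarith
  have hQe : Q * e ≤ E := by
    have h1 : exp (9 * t) * e ≤ 1 := by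
      rw [he, ← exp_add]
      apply exp_le_one_iff.2
      linarith
    have h2 : Q * e ≤ E * exp (9 * t) * e := mul_le_mul_of_nonneg_right hq3 he0.le
    have h3 : E * (exp (9 * t) * e) ≤ E * 1 := mul_le_mul_of_nonneg_left h1 (by linarith)
    linarith
  have hCw : 0 < C * w := mul_pos (by linarith) hw0
  rw [← he, div_le_iff₀ hCw]
  have hL' : (0.6931 : ℝ) ≤ L := by linarith
  have hΛ' : (0.6931 : ℝ) ≤ Λ := by linarith
  rcases Nat.lt_or_ge n (9 * 12 ^ q * w + b) with hlt | hge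
  · refine case_small he0.le he1 hb0 hw' hE1 hC.symm.le hL' hQe ?_
    rw [hQ]
    exact_mod_cast hlt.le
  · have h0 := hq' hge
    have hn1 : (1 : ℝ) ≤ n := by
      have h1 : (1 : ℕ) ≤ 12 ^ q := Nat.one_le_pow _ _ (by norm_num)
      have h2 : 1 * 1 ≤ 12 ^ q * w := Nat.mul_le_mul h1 hw
      have h3 : 9 * 12 ^ q * w = 9 * (12 ^ q * w) := by ring
      have : 1 ≤ n := by omega
      exact_mod_cast this
    obtain ⟨l, hl⟩ : ∃ l : ℝ, l = log (2 * (n + 1)) := ⟨_, rfl⟩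
    rw [← hl] at h0
    have hκ : 0 < 27 * Q * w := mul_pos (by linarith) hw0
    rw [div_mul_eq_mul_div, div_le_iff₀ hκ] at h0
    rcases le_or_gt (2 * l * (27 * Q * w)) (Λ * n) with h2 | h2
    · exact case_main he0.le hb0 hw' hE1 hC.symm.le hL' hΛ' hQe h0 h2
    · have hn0 : (0 : ℝ) ≤ 2 * (n + 1) := by linarith
      have hlw : log w ≤ t ^ 2 := by
        rw [htt, hx, log_mul hs0.ne' hw0.ne']
        have := log_nonneg hs'
        linarith
      refine case_large (y := sqrt (2 * (n + 1))) (t := t) he0.le hb0 hw' hn1 hQ0 ht0 hE1 hE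
        hC.symm.le hL' hΛ' hq3 hlw hee (sq_sqrt hn0) (sqrt_pos.2 (by linarith)) ?_ h2.le
      rw [hl, ← log_rpow (sqrt_pos.2 (by linarith)), rpow_two, sq_sqrt hn0]

end Pool.Helper98.MS
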